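import Mathlib
import Pool.Agent.helper81.DI.SpecA

/-! A11: chains in `Q × C_G(Q)` which start with `Q` (proved without hypotheses). -/

set_option autoImplicit false

namespace Pool.Agent.DI

open Pool.Agent.helper58.DC

section A11

variable {Γ : Type} [Group Γ]

theorem A11_mem_nrm (C : Finset (Subgroup Γ)) (x : Γ) : x ∈ nrm C ↔ ∀ P ∈ C, x ∈ nz P := by
  simp [nrm, Subgroup.mem_iInf]

theorem A11_mem_cz (Q : Subgroup Γ) (x : Γ) : x ∈ cz Q ↔ ∀ q ∈ Q, q * x = x * q := by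
  exact Subgroup.mem_centralizer_iff

theorem A11_mem_nz (Q : Subgroup Γ) (x : Γ) : x ∈ nz Q ↔ ∀ q, q ∈ Q ↔ x * q * x⁻¹ ∈ Q := by
  exact Subgroup.mem_normalizer_iff

theorem A11_nz_le (G Q : Subgroup Γ) (hc : ∀ x y : Γ, x * y * x⁻¹ * y⁻¹ ∈ G)
    (hQG : Q ⊓ G = ⊥) : nz Q ≤ cz Q := by
  intro x hx
  rw [A11_mem_cz]
  intro q hq
  have h1 : x * q * x⁻¹ ∈ Q := ((A11_mem_nz Q x).1 hx q).1 hq
  have h2 : x * q * x⁻¹ * q⁻¹ ∈ Q ⊓ G := ⟨Q.mul_mem h1 (Q.inv_mem hq), hc x q⟩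
  rw [hQG, Subgroup.mem_bot] at h2
  have h3 : x * q = q * x := mul_inv_eq_iff_eq_mul.1 (mul_inv_eq_one.1 h2)
  exact h3.symm

theorem A11_cz_le (Q : Subgroup Γ) : cz Q ≤ nz Q := by
  intro x hx
  rw [A11_mem_nz]
  rw [A11_mem_cz] at hx
  intro q
  constructor
  · intro hq
    have := hx q hq
    rw [← this]
    simpa using hq
  · intro hq
    have := hx _ hq
    have h2 : x * (x * q * x⁻¹) * x⁻¹ = x * q * x⁻¹ := by
      rw [← this]
      group
    have h3 : x * q * x⁻¹ = q := by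
      have := congrArg (fun t => x⁻¹ * t * x) h2
      simpa [mul_assoc] using this
    rwa [h3] at hq

theorem A11_mem_sup (Q R : Subgroup Γ) (h : R ≤ cz Q) (x : Γ) (hx : x ∈ Q ⊔ R) :
    ∃ q ∈ Q, ∃ r ∈ R, x = q * r := by
  let S : Subgroup Γ :=
    { carrier := {x | ∃ q ∈ Q, ∃ r ∈ R, x = q * r}
      mul_mem' := by
        rintro a b ⟨q, hq, r, hr, rfl⟩ ⟨q', hq', r', hr', rfl⟩
        refine ⟨q * q', Q.mul_mem hq hq', r * r', R.mul_mem hr hr', ?_⟩
        have : q' * r = r * q' := (A11_mem_cz Q r).1 (h hr) q' hq'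
        calc q * r * (q' * r') = q * (r * q') * r' := by group
          _ = q * (q' * r) * r' := by rw [this]
          _ = q * q' * (r * r') := by group
      one_mem' := ⟨1, Q.one_mem, 1, R.one_mem, by simp⟩
      inv_mem' := by
        rintro a ⟨q, hq, r, hr, rfl⟩
        refine ⟨q⁻¹, Q.inv_mem hq, r⁻¹, R.inv_mem hr, ?_⟩
        have : q⁻¹ * r⁻¹ = r⁻¹ * q⁻¹ :=
          (A11_mem_cz Q r⁻¹).1 (Subgroup.inv_mem _ (h hr)) q⁻¹ (Q.inv_mem hq)
        rw [mul_inv_rev, this] }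
  have : Q ⊔ R ≤ S := sup_le (fun q hq => ⟨q, hq, 1, R.one_mem, by simp⟩)
    (fun r hr => ⟨1, Q.one_mem, r, hr, by simp⟩)
  exact this hx

theorem A11_inf (G Q R : Subgroup Γ) (hQG : Q ⊓ G = ⊥) (h : R ≤ cz Q) (hG : R ≤ G) :
    (Q ⊔ R) ⊓ G = R := by
  apply le_antisymm
  · rintro x ⟨hx, hxG⟩
    obtain ⟨q, hq, r, hr, rfl⟩ := A11_mem_sup Q R h x hx
    have h2 : q ∈ Q ⊓ G := ⟨hq, by
      have := G.mul_mem hxG (G.inv_mem (hG hr))
      simpa using this⟩
    rw [hQG, Subgroup.mem_bot] at h2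
    simpa [h2] using hr
  · exact le_inf le_sup_right hG

theorem A11_sup (G Q P : Subgroup Γ) (hG : G.Normal) (hQP : Q ≤ P) (hP : P ≤ Q ⊔ G) :
    Q ⊔ (P ⊓ G) = P := by
  apply le_antisymm (sup_le hQP inf_le_left)
  intro x hx
  have h1 := hP hx
  rw [Subgroup.mem_sup_of_normal_right] at h1
  obtain ⟨q, hq, g, hg, rfl⟩ := h1
  have : g ∈ P := by simpa using P.mul_mem (P.inv_mem (hQP hq)) hx
  exact Subgroup.mul_mem_sup hq ⟨this, hg⟩

theorem A11_nz_inf (G P : Subgroup Γ) (hG : G.Normal) (x : Γ) (hx : x ∈ nz P) :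
    x ∈ nz (P ⊓ G) := by
  rw [A11_mem_nz] at hx ⊢
  intro q
  rw [Subgroup.mem_inf, Subgroup.mem_inf, ← hx q]
  refine and_congr_right fun _ => ⟨fun h => hG.conj_mem q h x, fun h => ?_⟩
  have := hG.conj_mem _ h x⁻¹
  simpa [mul_assoc] using this

theorem A11_nz_sup (Q R : Subgroup Γ) (h : R ≤ cz Q) (x : Γ) (hx : x ∈ nz Q) (hx' : x ∈ nz R) :
    x ∈ nz (Q ⊔ R) := by
  have key : ∀ y : Γ, y ∈ nz Q → y ∈ nz R → ∀ g ∈ Q ⊔ R, y * g * y⁻¹ ∈ Q ⊔ R := by
    intro y hy hy' g hg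
    obtain ⟨q, hq, r, hr, rfl⟩ := A11_mem_sup Q R h g hg
    have e : y * (q * r) * y⁻¹ = (y * q * y⁻¹) * (y * r * y⁻¹) := by group
    rw [e]
    exact Subgroup.mul_mem_sup (((A11_mem_nz Q y).1 hy q).1 hq) (((A11_mem_nz R y).1 hy' r).1 hr)
  rw [A11_mem_nz]
  intro g
  refine ⟨key x hx hx' g, fun hg => ?_⟩
  have := key x⁻¹ (Subgroup.inv_mem _ hx) (Subgroup.inv_mem _ hx') _ hg
  simpa [mul_assoc] using this

end A11

theorem A11 : A11_stmt := by
  classical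
  intro Γ _ _ p _ G Q M g hG hc hQ hQG
  have hnc : nz Q ≤ cz Q := A11_nz_le G Q hc hQG
  have hQc : Q ≤ cz Q := le_trans Subgroup.le_normalizer hnc
  unfold cSum
  have hsup : ∀ C, PCh p (cz Q ⊓ (Q ⊔ G)) Q C → ∀ P ∈ C, Q ⊔ (P ⊓ G) = P := by
    intro C hC P hP
    exact A11_sup G Q P hG (hC.bot P hP) ((hC.le P hP).trans inf_le_right)
  have hinf : ∀ D, PCh p (G ⊓ cz Q) ⊥ D → ∀ R ∈ D, (Q ⊔ R) ⊓ G = R := by
    intro D hD R hR
    exact A11_inf G Q R hQG ((hD.le R hR).trans inf_le_right) ((hD.le R hR).trans inf_le_left)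
  have hmap : ∀ C, PCh p (cz Q ⊓ (Q ⊔ G)) Q C → PCh p (G ⊓ cz Q) ⊥ (C.image (· ⊓ G)) := by
    intro C hC
    refine ⟨?_, ?_, fun _ _ => bot_le, ?_, ?_⟩
    · intro A hA B hB _
      rw [Finset.mem_coe, Finset.mem_image] at hA hB
      obtain ⟨A, hA, rfl⟩ := hA
      obtain ⟨B, hB, rfl⟩ := hB
      rcases hC.chain.total hA hB with h | h
      · exact Or.inl (inf_le_inf_right G h)
      · exact Or.inr (inf_le_inf_right G h)
    · exact Finset.mem_image.2 ⟨Q, hC.mem, hQG⟩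
    · intro A hA
      obtain ⟨A', hA', rfl⟩ := Finset.mem_image.1 hA
      exact le_inf inf_le_right (inf_le_left.trans ((hC.le A' hA').trans inf_le_left))
    · intro A hA
      obtain ⟨A', hA', rfl⟩ := Finset.mem_image.1 hA
      exact (hC.pg A' hA').to_le inf_le_left
  have hmap' : ∀ D, PCh p (G ⊓ cz Q) ⊥ D → PCh p (cz Q ⊓ (Q ⊔ G)) Q (D.image (Q ⊔ ·)) := by
    intro D hD
    refine ⟨?_, ?_, ?_, ?_, ?_⟩
    · intro A hA B hB _
      rw [Finset.mem_coe, Finset.mem_image] at hA hB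
      obtain ⟨A, hA, rfl⟩ := hA
      obtain ⟨B, hB, rfl⟩ := hB
      rcases hD.chain.total hA hB with h | h
      · exact Or.inl (sup_le_sup_left h Q)
      · exact Or.inr (sup_le_sup_left h Q)
    · exact Finset.mem_image.2 ⟨⊥, hD.mem, sup_bot_eq Q⟩
    · intro A hA
      obtain ⟨A, hA, rfl⟩ := Finset.mem_image.1 hA
      exact le_sup_left
    · intro A hA
      obtain ⟨A', hA', rfl⟩ := Finset.mem_image.1 hA
      have h1 := hD.le A' hA'
      exact le_inf (sup_le hQc (h1.trans inf_le_right)) (sup_le_sup_left (h1.trans inf_le_left) Q)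
    · intro A hA
      obtain ⟨A', hA', rfl⟩ := Finset.mem_image.1 hA
      exact hQ.to_sup_of_normal_left' (hD.pg A' hA')
        (((hD.le A' hA').trans inf_le_right).trans (A11_cz_le Q))
  refine finsum_mem_eq_of_bijOn (fun C => C.image (· ⊓ G)) ?_ ?_
  · refine Set.InvOn.bijOn (f' := fun D => D.image (Q ⊔ ·)) ⟨?_, ?_⟩ ?_ ?_
    · intro C hC
      simp only
      rw [Finset.image_image]
      calc C.image ((Q ⊔ ·) ∘ (· ⊓ G)) = C.image id :=
            Finset.image_congr (fun P hP => hsup C hC P hP)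
        _ = C := Finset.image_id
    · intro D hD
      simp only
      rw [Finset.image_image]
      calc D.image ((· ⊓ G) ∘ (Q ⊔ ·)) = D.image id :=
            Finset.image_congr (fun R hR => hinf D hD R hR)
        _ = D := Finset.image_id
    · intro C hC
      exact hmap C hC
    · intro D hD
      exact hmap' D hD
  · intro C hC
    have hC' : PCh p (cz Q ⊓ (Q ⊔ G)) Q C := hC
    have hcard : (C.image (· ⊓ G)).card = C.card := by
      apply Finset.card_image_of_injOn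
      intro A hA B hB hAB
      simp only at hAB
      rw [← hsup C hC' A hA, ← hsup C hC' B hB, hAB]
    have hnrm : M ⊓ nrm C = (M ⊓ cz Q) ⊓ nrm (C.image (· ⊓ G)) := by
      ext x
      simp only [Subgroup.mem_inf, A11_mem_nrm, Finset.mem_image]
      constructor
      · rintro ⟨hM, hx⟩
        refine ⟨⟨hM, hnc (hx Q hC'.mem)⟩, ?_⟩
        rintro _ ⟨P, hP, rfl⟩
        exact A11_nz_inf G P hG x (hx P hP)
      · rintro ⟨⟨hM, hxc⟩, hx⟩
        refine ⟨hM, fun P hP => ?_⟩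
        have h1 := A11_nz_sup Q (P ⊓ G)
          (inf_le_left.trans ((hC'.le P hP).trans inf_le_left)) x (A11_cz_le Q hxc)
          (hx _ ⟨P, hP, rfl⟩)
        rwa [hsup C hC' P hP] at h1
    rw [hcard, hnrm]

end Pool.Agent.DI
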